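import Pool.Agent.Q39.WR.Defs
import Pool.Agent.Q39.WR.Bound

set_option autoImplicit false

/-!
# Large generic arrangements have large Waring rank

If a generic arrangement `F = ℓ₁ ⋯ ℓ_d` in `ℙⁿ`, `n ≥ 2`, is a sum of `r` powers `m_j ^ d` of
pairwise non-proportional linear forms, restrict this identity to the hyperplane `ℓ_i = 0`: since
powers of pairwise non-proportional forms are linearly independent (for `r ≤ d + 1`), for every
fixed `j` the form `ℓ_i` lies in the span of `m_j` and another `m_k`. As any three `ℓ_i` are
linearly independent, this gives `d ≤ 2 r`. So the Waring rank of generic arrangements of size `d`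
tends to infinity with `d`, and it cannot stay equal to `(2n choose n)`.
-/

namespace Pool.Agent.Results.MP_02c618_ag.NeverHolds

open Pool.Agent.Q39.WR

/-- **`P(n)` holds for no `n ≥ 2`**: for every `n ≥ 2` there is a `D` such that no generic
arrangement of `d ≥ D` hyperplanes in `ℙⁿ` has Waring rank `(2n choose n)`. -/
theorem result : {n : ℕ | 2 ≤ n ∧ P n} = ∅ := by
  ext n
  simp only [Set.mem_setOf_eq, Set.mem_empty_iff_false, iff_false, not_and]
  exact fun hn => not_P hn

end Pool.Agent.Results.MP_02c618_ag.NeverHolds
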